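import Pool.Agent.E4803a.Count

set_option autoImplicit false

open Filter Topology MeasureTheory

namespace Pool.Agent.Results.MP_e4803a_nt.SqrtGolden

/-- `S_n(ω) = ∑_{k=1}^n cos(2π a_k ω)`. -/
noncomputable def S (a : ℕ → ℤ) (n : ℕ) (ω : ℝ) : ℝ :=
  ∑ k ∈ Finset.Icc 1 n, Real.cos (2 * Real.pi * (a k : ℝ) * ω)

/-- The `m`-th cumulant of `X` as a random variable on `[0,1]` with Lebesgue measure. -/
noncomputable def cumulant (m : ℕ) (X : ℝ → ℝ) : ℝ :=
  iteratedDeriv m (fun t : ℝ => Real.log (∫ ω in Set.Icc (0 : ℝ) 1, Real.exp (t * X ω))) 0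

/-- The `m`-th cumulant of the arcsine law (the logarithm of `I₀` differentiated `m` times). -/
noncomputable def kappaTilde (m : ℕ) : ℝ :=
  iteratedDeriv m
    (fun t : ℝ => Real.log (∑' j : ℕ, (t / 2) ^ (2 * j) / ((j.factorial : ℝ) ^ 2))) 0

/-- Perron numbers: real algebraic integers `x > 1` all of whose other conjugates have absolute
value strictly less than `x`. -/
def IsPerron (x : ℝ) : Prop :=
  1 < x ∧ IsIntegral ℤ x ∧
    ∀ y : ℂ, Polynomial.aeval y (minpoly ℚ x) = 0 → y ≠ (x : ℂ) → ‖y‖ < x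

/-- The frequencies `a_k = ⌊η^k⌋`. -/
noncomputable def a (η : ℝ) (k : ℕ) : ℤ := ⌊η ^ k⌋

/-- The assertion of Q1 for a given `η`: all limits `c_m` exist and are finite, and `c_m` differs
from the `m`-th cumulant of the arcsine law for at least one `m`. -/
def LinearGrowth (η : ℝ) : Prop :=
  ∃ c : ℕ → ℝ,
    (∀ m : ℕ, 1 ≤ m →
      Tendsto (fun n : ℕ => cumulant m (S (a η) n) / n) atTop (𝓝 (c m))) ∧
    ∃ m : ℕ, 1 ≤ m ∧ c m ≠ kappaTilde m

/-- For `η = √φ`, `φ` the golden ratio, which is an algebraic number `> 1` that is not a Perron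
number, the sixth cumulant of `S_n` grows at least quadratically; in particular
`κ₆(S_n)/n → ∞`, and the assertion of Q1 fails. -/
theorem result :
    1 < √Real.goldenRatio ∧ IsAlgebraic ℚ √Real.goldenRatio ∧ ¬ IsPerron √Real.goldenRatio ∧
    (∀ᶠ n : ℕ in atTop, (n : ℝ) ^ 2 / 32768 ≤ cumulant 6 (S (a √Real.goldenRatio) n)) ∧
    Tendsto (fun n : ℕ => cumulant 6 (S (a √Real.goldenRatio) n) / n) atTop atTop ∧
    ¬ LinearGrowth √Real.goldenRatio := by
  have hlow : ∀ᶠ n : ℕ in atTop,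
      (n : ℝ) ^ 2 / 32768 ≤ cumulant 6 (S (a √Real.goldenRatio) n) := by
    have h0 := fun n => E4803a.kappa6_eq E4803a.fr n
      (fun k => by have := E4803a.fr_pos k; omega)
    filter_upwards [eventually_ge_atTop (512 * (25 * 18002 ^ 6) + 20000)] with n hn
    have h1 : 64 * cumulant 6 (S (a √Real.goldenRatio) n) =
      ((∑ σ : Fin 6 → Fin n × Bool, E4803a.K (fun i => E4803a.val E4803a.fr (σ i)) : ℤ) : ℝ) :=
      h0 n
    have h2 := E4803a.sum_lower (n := n) (N := (n - 2) / 8) (by omega) (by omega)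
    have h3 : ((((n - 2) / 8 : ℕ) : ℤ) : ℝ) ≥ ((n : ℝ) - 9) / 8 := by
      have : (n : ℤ) ≤ 8 * (((n - 2) / 8 : ℕ) : ℤ) + 9 := by omega
      have h4 : ((n : ℤ) : ℝ) ≤ ((8 * (((n - 2) / 8 : ℕ) : ℤ) + 9 : ℤ) : ℝ) := by
        exact_mod_cast this
      push_cast at h4 ⊢
      linarith
    have h5 : (((((n - 2) / 8 : ℕ) : ℤ) : ℝ) - 1000) ^ 2 - 25 * (n * 18002 ^ 6) ≤
        64 * cumulant 6 (S (a √Real.goldenRatio) n) := by
      rw [h1]
      exact_mod_cast h2
    have h6 : (512 * (25 * 18002 ^ 6) + 20000 : ℝ) ≤ n := by exact_mod_cast hn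
    have hC : (0 : ℝ) ≤ 18002 ^ 6 := by positivity
    generalize (18002 : ℝ) ^ 6 = C at h5 h6 hC
    have h7 : (n : ℝ) / 16 ≤ ((((n - 2) / 8 : ℕ) : ℤ) : ℝ) - 1000 := by linarith
    have h8 : ((n : ℝ) / 16) ^ 2 ≤ (((((n - 2) / 8 : ℕ) : ℤ) : ℝ) - 1000) ^ 2 :=
      pow_le_pow_left₀ (by positivity) h7 2
    have hn0 : (0 : ℝ) ≤ n := by positivity
    have h9 : (n : ℝ) * (512 * (25 * C)) ≤ n * n :=
      mul_le_mul_of_nonneg_left (by linarith) hn0
    nlinarith
  have htop : Tendsto (fun n : ℕ => cumulant 6 (S (a √Real.goldenRatio) n) / n) atTop atTop := by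
    have h1 : Tendsto (fun n : ℕ => (n : ℝ) / 32768) atTop atTop :=
      tendsto_natCast_atTop_atTop.atTop_div_const (by norm_num)
    refine tendsto_atTop_mono' atTop ?_ h1
    filter_upwards [hlow, eventually_gt_atTop 0] with n hn hn0
    have hn' : (0 : ℝ) < n := by exact_mod_cast hn0
    rw [le_div_iff₀ hn']
    calc (n : ℝ) / 32768 * n = (n : ℝ) ^ 2 / 32768 := by ring
      _ ≤ _ := hn
  refine ⟨E4803a.eta_gt_one, E4803a.eta_int.tower_top.isAlgebraic, ?_, hlow, htop, ?_⟩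
  · rintro ⟨h1, -, h2⟩
    have h3 := h2 _ E4803a.minpoly_conj (by
      intro h
      have h4 : -E4803a.eta = E4803a.eta := by exact_mod_cast h
      have := E4803a.eta_pos
      linarith)
    rw [Complex.norm_real, norm_neg, Real.norm_of_nonneg E4803a.eta_pos.le] at h3
    exact lt_irrefl _ h3
  · rintro ⟨c, h1, -⟩
    exact not_tendsto_nhds_of_tendsto_atTop htop (c 6) (h1 6 (by norm_num))

end Pool.Agent.Results.MP_e4803a_nt.SqrtGolden
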